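import Mathlib
import Pool.Agent.W811.Stu.Final

/-!
# Sturmian spectra: digits of subexponential growth

The comparison theorems of the starting library (helpers 811, 965, 338 and their teams) hold for
all frequencies whose digits grow subexponentially.
-/

set_option autoImplicit false

open Filter Topology
open scoped NNReal ENNReal

namespace Pool.Agent.Y16.ST

open Pool.Agent.W811.Stu Pool.Agent.W338.Stu Pool.Agent.W965.Stu

/-- subexponential growth -/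
def SubExp (d : ℕ → ℕ) : Prop := ∀ δ : ℝ, 0 < δ → ∀ᶠ k : ℕ in atTop, (d k : ℝ) ≤ Real.exp (δ * k)

lemma SubExp.sh {d : ℕ → ℕ} (h : SubExp d) (n : ℕ) : SubExp (sh d n) := by
  intro δ hδ
  have h1 : Tendsto (fun l : ℕ => n + 1 + l) atTop atTop :=
    tendsto_atTop_mono (fun l => (by show l ≤ n + 1 + l; omega)) tendsto_id
  filter_upwards [h1.eventually (h (δ / 2) (by positivity)), eventually_ge_atTop (n + 1)] with k hk hk2
  have h2 : Pool.Agent.W811.Stu.sh d n k = d (n + 1 + k) := rfl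
  rw [h2]
  refine hk.trans (Real.exp_le_exp.2 ?_)
  have h3 : ((n + 1 : ℕ) : ℝ) ≤ k := by exact_mod_cast hk2
  push_cast at h3 ⊢
  nlinarith

/-- powers of the digits are dominated by the exponential growth of the derivatives -/
lemma growthS {β : ℕ → ℕ} (hβ : SubExp β) {c0 Cr r : ℝ}
    (hc0 : 0 < c0) (hCr : 1 ≤ Cr) (hr : r < 1) :
    ∃ C' : ℝ, 0 < C' ∧ ∀ l : ℕ,
      Cr * (1 + (β l : ℝ)) ^ 3 * (c0 * 2 ^ (l / 2)) ^ (-(1 - r)) ≤ C' := by
  set ρ : ℝ := (2 : ℝ) ^ (-(1 - r) / 2) with hρ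
  have hρ0 : 0 < ρ := Real.rpow_pos_of_pos two_pos _
  set δ : ℝ := (1 - r) * Real.log 2 / 6 with hδ
  have hl2 : 0 < Real.log 2 := Real.log_pos one_lt_two
  have hδ0 : 0 < δ := by
    have : 0 < 1 - r := by linarith
    positivity
  have hρe : Real.exp (3 * δ) * ρ = 1 := by
    rw [hρ, Real.rpow_def_of_pos two_pos, ← Real.exp_add, hδ, Real.exp_eq_one_iff]
    ring
  have hpow : ∀ l : ℕ, ((2 : ℝ) ^ (l / 2)) ^ (-(1 - r)) ≤ ρ ^ l * (ρ ^ 1)⁻¹ := by
    intro l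
    have h1 : (2 : ℝ) ^ (l / 2) = (2 : ℝ) ^ (((l / 2 : ℕ) : ℝ)) := (Real.rpow_natCast 2 _).symm
    rw [h1, ← Real.rpow_mul two_pos.le]
    have h2 : ρ ^ l * (ρ ^ 1)⁻¹ = (2 : ℝ) ^ (-(1 - r) / 2 * ((l : ℝ) - 1)) := by
      rw [pow_one, hρ, ← Real.rpow_natCast, ← Real.rpow_mul two_pos.le, ← Real.rpow_neg two_pos.le,
        ← Real.rpow_add two_pos]
      congr 1
      ring
    rw [h2]
    refine Real.rpow_le_rpow_of_exponent_le one_le_two ?_
    have h3 : (l : ℝ) - 1 ≤ 2 * ((l / 2 : ℕ) : ℝ) := by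
      have : l ≤ 2 * (l / 2) + 1 := by omega
      have : (l : ℝ) ≤ 2 * ((l / 2 : ℕ) : ℝ) + 1 := by exact_mod_cast this
      linarith
    nlinarith
  have hK : 0 < c0 ^ (-(1 - r)) := Real.rpow_pos_of_pos hc0 _
  have hbd : ∀ᶠ l : ℕ in atTop, Cr * (1 + (β l : ℝ)) ^ 3 * (c0 * 2 ^ (l / 2)) ^ (-(1 - r)) ≤
      Cr * 8 * c0 ^ (-(1 - r)) * (ρ ^ 1)⁻¹ := by
    filter_upwards [hβ δ hδ0] with l hl
    have h1 : (1 : ℝ) ≤ Real.exp (δ * l) := Real.one_le_exp (by positivity)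
    have h2 : (1 + (β l : ℝ)) ^ 3 ≤ 8 * Real.exp (3 * δ) ^ l := by
      calc (1 + (β l : ℝ)) ^ 3 ≤ (2 * Real.exp (δ * l)) ^ 3 :=
            pow_le_pow_left₀ (by positivity) (by linarith) 3
        _ = 8 * Real.exp (3 * δ) ^ l := by
            rw [mul_pow, ← Real.exp_nat_mul, ← Real.exp_nat_mul]
            push_cast
            ring_nf
    have h3 : (c0 * 2 ^ (l / 2)) ^ (-(1 - r)) =
        c0 ^ (-(1 - r)) * ((2 : ℝ) ^ (l / 2)) ^ (-(1 - r)) :=
      Real.mul_rpow hc0.le (by positivity)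
    have h4 : Real.exp (3 * δ) ^ l * ρ ^ l = 1 := by rw [← mul_pow, hρe, one_pow]
    rw [h3]
    calc Cr * (1 + (β l : ℝ)) ^ 3 * (c0 ^ (-(1 - r)) * ((2 : ℝ) ^ (l / 2)) ^ (-(1 - r)))
        ≤ Cr * (8 * Real.exp (3 * δ) ^ l) * (c0 ^ (-(1 - r)) * (ρ ^ l * (ρ ^ 1)⁻¹)) := by
          refine mul_le_mul (mul_le_mul_of_nonneg_left h2 (by linarith))
            (mul_le_mul_of_nonneg_left (hpow l) hK.le) (by positivity) (by positivity)
      _ = Cr * 8 * c0 ^ (-(1 - r)) * (ρ ^ 1)⁻¹ * (Real.exp (3 * δ) ^ l * ρ ^ l) := by ring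
      _ = _ := by rw [h4, mul_one]
  obtain ⟨C', hC'⟩ := (Filter.isBoundedUnder_of_eventually_le hbd).bddAbove_range
  refine ⟨max C' 1, lt_of_lt_of_le one_pos (le_max_right _ _), fun l => ?_⟩
  exact (hC' ⟨l, rfl⟩).trans (le_max_left _ _)

/-- regularity of the holonomy, subexponential digits -/
def THolS : Prop := ∀ lam : ℝ, 0 < lam → ∀ (d : ℕ → ℕ) (n : ℕ), (∀ k, 1 ≤ d k) →
  SubExp d → ∀ e0 e1, Win lam d n e0 e1 → ∀ r : ℝ, 0 < r → r < 1 →
  ∃ C : ℝ, 0 < C ∧ ∀ E0 ∈ Sp lam (sh d n), ∀ E0' ∈ Sp lam (sh d n), ∀ E1 E1' : ℝ,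
    Hol lam d n e0 e1 E0 E1 → Hol lam d n e0 e1 E0' E1' → |E0 - E0'| ≤ C * |E1 - E1'| ^ r

theorem holS (hA : THA) (hB : THB) (hN : THN) (hL : TLB) (hy : THyp) : THolS := by
  classical
  intro lam hlam d n hd hdg e0 e1 hW r hr0 hr1
  obtain ⟨jA, KA, CA, hjA, hKA, hCA, hA⟩ := hA lam hlam
  obtain ⟨jB, KB, cB, hjB, hKB, hcB, hB⟩ := hB lam hlam d n hd e0 e1 hW
  obtain ⟨j0, hj0A, hj0B⟩ : ∃ j0, jA ≤ j0 ∧ jB ≤ j0 := ⟨max jA jB, le_max_left _ _, le_max_right _ _⟩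
  obtain ⟨K0, hK0A, hK0B⟩ : ∃ K0, KA ≤ K0 ∧ KB ≤ K0 := ⟨max KA KB, le_max_left _ _, le_max_right _ _⟩
  have hj0 : 2 ≤ j0 := hjA.trans hj0A
  have hK0 : 1 ≤ K0 := hKA.trans hK0A
  obtain ⟨Cr, hCr, hN⟩ := hN lam hlam K0 hK0
  have hN := hN d n hd
  have hA := hA d n hd e0 e1 hW
  have hδ : lam / 2 ≠ 0 := by positivity
  obtain ⟨c0, hc0, hLB⟩ := hL (lam / 2) 1 hδ zero_le_one (one_lt_cc hδ)
  set β := sh d n with hβdef
  have hβ : ∀ k, 1 ≤ β k := fun k => hd _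
  obtain ⟨C, hC⟩ := Pool.Agent.W308.Stu.tBdd lam hlam
  have hR : ∀ E ∈ Sp lam β, |E| ≤ 2 * C := by
    intro E hE
    have h1 := (hC β hβ E hE 0).2.1
    have h2 : (orb β (lin lam E) 0).y = E / 2 := rfl
    rw [h2, abs_div, abs_two] at h1
    linarith
  -- bound of the derivatives at the two possible starting states
  have hcont : Continuous fun E => |Vy β j0 (lin lam E)| + |Vy β (j0 + 1) (lin lam E)| := by
    have h1 := (cont_Vy β j0).comp (cont_lin lam)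
    have h2 := (cont_Vy β (j0 + 1)).comp (cont_lin lam)
    simp only [Function.comp_def, ofL_toL] at h1 h2
    exact h1.abs.add h2.abs
  obtain ⟨Dm, hDm⟩ := (isCompact_Icc (a := -(2 * C)) (b := 2 * C)).bddAbove_image hcont.continuousOn
  have hDm' : ∀ E ∈ Sp lam β, |Vy β j0 (lin lam E)| + |Vy β (j0 + 1) (lin lam E)| ≤ Dm := by
    intro E hE
    exact hDm ⟨E, abs_le.1 (hR E hE), rfl⟩
  obtain ⟨C', hC'0, hC'⟩ := growthS (β := β) (c0 := c0) (Cr := Cr) (r := r) (hdg.sh n) hc0 hCr hr1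
  set D1 : ℝ := max Dm 1 with hD1
  have hD1p : 1 ≤ D1 := le_max_right _ _
  refine ⟨max (4 * C) 1 * (D1 / cB) ^ r + CA * cB ^ (-r) * C', by
    have : 0 < cB ^ (-r) := Real.rpow_pos_of_pos hcB _
    positivity, ?_⟩
  intro E0 hE0 E0' hE0' E1 E1' hH hH'
  have hxr : 0 ≤ |E1 - E1'| ^ r := Real.rpow_nonneg (abs_nonneg _) _
  have hc1 : 0 ≤ max (4 * C) 1 * (D1 / cB) ^ r := by positivity
  have hc2 : 0 ≤ CA * cB ^ (-r) * C' := by
    have : 0 < cB ^ (-r) := Real.rpow_pos_of_pos hcB _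
    positivity
  by_cases heq : E0 = E0'
  · rw [heq, sub_self, abs_zero]
    positivity
  have hpos : 0 < |E0 - E0'| := abs_pos.2 (sub_ne_zero.2 heq)
  -- a state with a large level function
  have hsub : ∀ e ∈ Set.uIcc E1 E1', |E1 - e| ≤ |E1 - E1'| := by
    intro e he
    rw [abs_sub_comm E1 e, abs_sub_comm E1 E1']
    exact Set.abs_sub_left_of_mem_uIcc he
  have hBs : ∀ s : St, s.Valid lam β E0 j0 K0 →
      (∃ e ∈ Set.uIcc E1 E1', kap lam 2 < |s.fn β (Ga lam d n e)|) →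
      cB ≤ |E1 - E1'| * s.D lam β E0 := by
    rintro s hs ⟨e, he, hel⟩
    refine (hB E0 hE0 E1 hH s (valid_mono hj0B hK0B hs) e hel).trans ?_
    exact mul_le_mul_of_nonneg_right (hsub e he) (abs_nonneg _)
  -- a bound for the levels of good states
  have hlow : ∀ s : St, s.Valid lam β E0 j0 K0 → c0 * 2 ^ (s.lv / 2) ≤ s.D lam β E0 :=
    fun s hs => D_lower hlam hy hLB hβ hE0 hj0 hK0 hs
  have hgood : ∀ s : St, s.Valid lam β E0 j0 K0 → s.Ok lam d n E1 E1' →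
      |E0 - E0'| * s.D lam β E0 ≤ CA := fun s hs hok =>
    hA E0 hE0 E0' hE0' E1 E1' hH hH' s (valid_mono hj0A hK0A hs) hok
  obtain ⟨N, hNN⟩ : ∃ N : ℕ, CA / |E0 - E0'| / c0 < 2 ^ N := pow_unbounded_of_one_lt _ one_lt_two
  have hfin : {s : St | s.Valid lam β E0 j0 K0 ∧ s.Ok lam d n E1 E1'}.Finite := by
    refine (finite_states β lam E0 j0 K0 (2 * N + 2)).subset ?_
    rintro s ⟨hs, hok⟩
    refine ⟨hs, ?_⟩
    by_contra hcon
    have h1 : N ≤ s.lv / 2 := by omega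
    have h2 : (2 : ℝ) ^ N ≤ 2 ^ (s.lv / 2) := pow_le_pow_right₀ one_le_two h1
    have h3 := hgood s hs hok
    have h4 := hlow s hs
    have h5 : c0 * 2 ^ N ≤ s.D lam β E0 := (mul_le_mul_of_nonneg_left h2 hc0.le).trans h4
    have h6 : |E0 - E0'| * (c0 * 2 ^ N) ≤ CA := (mul_le_mul_of_nonneg_left h5 hpos.le).trans h3
    rw [div_lt_iff₀ hc0, div_lt_iff₀ hpos] at hNN
    linarith
  rcases Set.eq_empty_or_nonempty {s : St | s.Valid lam β E0 j0 K0 ∧ s.Ok lam d n E1 E1'} with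
    hemp | hne
  · -- no good state: the starting state is not good
    obtain ⟨j, hj, hjv⟩ : ∃ j, (j = j0 ∨ j = j0 + 1) ∧ (St.Y j).Valid lam β E0 j0 K0 := by
      rcases start_valid hE0 j0 K0 with h | h
      · exact ⟨j0, Or.inl rfl, h⟩
      · exact ⟨j0 + 1, Or.inr rfl, h⟩
    have hnot : ¬ (St.Y j).Ok lam d n E1 E1' := by
      intro hok
      have : St.Y j ∈ {s : St | s.Valid lam β E0 j0 K0 ∧ s.Ok lam d n E1 E1'} := ⟨hjv, hok⟩
      rw [hemp] at this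
      exact this
    have hex : ∃ e ∈ Set.uIcc E1 E1', kap lam 2 < |(St.Y j).fn β (Ga lam d n e)| := by
      by_contra hcon
      push Not at hcon
      exact hnot fun e he => hcon e he
    have h1 := hBs _ hjv hex
    have h2 : (St.Y j).D lam β E0 ≤ D1 := by
      have h3 := hDm' E0 hE0
      have h4 : (St.Y j).D lam β E0 = |Vy β j (lin lam E0)| := rfl
      rw [h4]
      rcases hj with h | h
      · rw [h]
        have := abs_nonneg (Vy β (j0 + 1) (lin lam E0))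
        exact (by linarith : _ ≤ Dm).trans (le_max_left _ _)
      · rw [h]
        have := abs_nonneg (Vy β j0 (lin lam E0))
        exact (by linarith : _ ≤ Dm).trans (le_max_left _ _)
    have h3 : cB ≤ |E1 - E1'| * D1 := h1.trans (mul_le_mul_of_nonneg_left h2 (abs_nonneg _))
    have h4 : 1 ≤ (D1 / cB) ^ r * |E1 - E1'| ^ r := by
      rw [← Real.mul_rpow (by positivity) (abs_nonneg _)]
      refine Real.one_le_rpow ?_ hr0.le
      rw [div_mul_eq_mul_div, le_div_iff₀ hcB]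
      linarith
    have h5 : |E0 - E0'| ≤ max (4 * C) 1 := by
      refine le_trans ?_ (le_max_left _ _)
      have h6 := hR E0 hE0
      have h7 := hR E0' hE0'
      have h8 := abs_sub E0 E0'
      linarith
    calc |E0 - E0'| ≤ max (4 * C) 1 * 1 := by rw [mul_one]; exact h5
      _ ≤ max (4 * C) 1 * ((D1 / cB) ^ r * |E1 - E1'| ^ r) :=
          mul_le_mul_of_nonneg_left h4 (by positivity)
      _ ≤ _ := by nlinarith [mul_nonneg hc2 hxr]
  · obtain ⟨s, ⟨hs, hok⟩, hmax⟩ := Set.exists_max_image _ (fun s : St => s.mu β) hfin hne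
    obtain ⟨s', hs', hmu, hD', hnext⟩ := hN E0 hE0 j0 hj0 s hs
    have hnok : ¬ s'.Ok lam d n E1 E1' := by
      intro hok'
      have := hmax s' ⟨hs', hok'⟩
      linarith
    have h1 := hBs s' hs' (hnext E1 E1' hok hnok)
    have h2 : cB ≤ |E1 - E1'| * (Cr * (1 + (β s.lv : ℝ)) ^ 3 * s.D lam β E0) :=
      h1.trans (mul_le_mul_of_nonneg_left hD' (abs_nonneg _))
    have hP : 1 ≤ Cr * (1 + (β s.lv : ℝ)) ^ 3 := by
      have h3 : (1 : ℝ) ≤ (1 + (β s.lv : ℝ)) ^ 3 := one_le_pow₀ (by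
        have : (0 : ℝ) ≤ β s.lv := Nat.cast_nonneg _
        linarith)
      nlinarith
    have h3 := last_ineq (abs_nonneg (E0 - E0')) (abs_nonneg (E1 - E1')) hr0 hr1 hP hCA hcB
      (by positivity) (hlow s hs) (hgood s hs hok) h2 (hC' s.lv)
    refine h3.trans ?_
    nlinarith [mul_nonneg hc1 hxr]


theorem tHolS : THolS := holS tHA tHB tHN tLB tHyp

/-- the key statement, subexponential digits -/
def KeyS : Prop :=
  ∀ lam : ℝ, 0 < lam → ∃ A : ℕ, ∀ d : ℕ → ℕ, (∀ k, 1 ≤ d k) → ∀ n, A ≤ d n →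
    SubExp d →
    ∀ r : ℝ≥0, 0 < r → r < 1 → ∃ (C : ℝ≥0) (g : ℝ → ℝ) (Q : Set ℝ), Q ⊆ Sp lam d ∧
      g '' Q = Sp lam (fun k => d (n + 1 + k)) ∧ HolderOnWith C r g Q

theorem keyS0 (h1 : THolEx) (h2 : THolS) : KeyS := by
  intro lam hlam
  obtain ⟨A, hA⟩ := h1 lam hlam
  refine ⟨A, ?_⟩
  intro d hd n hn hgr r hr0 hr1
  obtain ⟨e0, e1, hW, hEx⟩ := hA d hd n hn
  obtain ⟨C, hC, hH⟩ := h2 lam hlam d n hd hgr e0 e1 hW r (by exact_mod_cast hr0)
    (by exact_mod_cast hr1)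
  choose! f hf using hEx
  have hinj : Set.InjOn f (Sp lam (sh d n)) := by
    intro a ha b hb hab
    have h := hH a ha b hb (f a) (f b) (hf a ha).2.2 (hf b hb).2.2
    rw [hab, sub_self, abs_zero, Real.zero_rpow (by
      have : (0 : ℝ) < r := by exact_mod_cast hr0
      exact this.ne'), mul_zero] at h
    have h3 : |a - b| = 0 := le_antisymm h (abs_nonneg _)
    rw [abs_eq_zero, sub_eq_zero] at h3
    exact h3
  refine ⟨C.toNNReal, Function.invFunOn f (Sp lam (sh d n)), f '' Sp lam (sh d n), ?_, ?_, ?_⟩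
  · rintro _ ⟨a, ha, rfl⟩
    exact (hf a ha).1
  · have h4 : (Function.invFunOn f (Sp lam (sh d n))) '' (f '' Sp lam (sh d n)) =
        Sp lam (sh d n) := by
      rw [Set.image_image]
      apply Set.Subset.antisymm
      · rintro _ ⟨a, ha, rfl⟩
        simp only
        rw [hinj.leftInvOn_invFunOn ha]
        exact ha
      · intro a ha
        exact ⟨a, ha, hinj.leftInvOn_invFunOn ha⟩
    exact h4
  · rintro _ ⟨a, ha, rfl⟩ _ ⟨b, hb, rfl⟩
    rw [hinj.leftInvOn_invFunOn ha, hinj.leftInvOn_invFunOn hb]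
    have h := hH a ha b hb (f a) (f b) (hf a ha).2.2 (hf b hb).2.2
    rw [edist_dist, edist_dist, Real.dist_eq, Real.dist_eq]
    rw [ENNReal.ofReal_rpow_of_nonneg (abs_nonneg _) (NNReal.coe_nonneg r)]
    have e : ((C.toNNReal : ℝ≥0) : ENNReal) = ENNReal.ofReal C := rfl
    rw [e, ← ENNReal.ofReal_mul hC.le]
    exact ENNReal.ofReal_le_ofReal h


theorem keyS : KeyS := keyS0 tHolEx tHolS

end Pool.Agent.Y16.ST
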