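import Mathlib
import Pool.Agent.W965.Stu.ZeroOne
import Pool.Agent.Y16.ST.Sub

/-!
# A class of measures on the frequencies and the zero-one law
-/

set_option autoImplicit false

open MeasureTheory Filter Topology Set
open scoped NNReal ENNReal

namespace Pool.Agent.Y16.ST

open Pool.Agent.W811.Stu Pool.Agent.W965.Stu Pool.Agent

/-- measures carried by the irrational frequencies for which almost every orbit of the Gauss map
visits every set of positive measure, every set of positive measure has a preimage of positive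
measure with an arbitrarily large digit, and the digits grow subexponentially -/
structure Typical (μ : Measure ℝ) : Prop where
  base : ∀ᵐ α ∂μ, Irrational α ∧ α ∈ Ioo (0:ℝ) 1
  visit : ∀ E : Set ℝ, MeasurableSet E → μ E ≠ 0 → ∀ᵐ α ∂μ, ∃ n, gauss^[n] α ∈ E
  large : ∀ (A : ℕ) (E : Set ℝ), MeasurableSet E → μ E ≠ 0 →
    μ {x | A ≤ dig x 0 ∧ gauss x ∈ E} ≠ 0
  growth : ∀ᵐ α ∂μ, SubExp (dig α)

/-- **Zero-one law.** -/
theorem zero_oneT {μ : Measure ℝ} (hμ : Typical μ) {L : Type} [CompleteLinearOrder L]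
    [TopologicalSpace L] [OrderTopology L]
    [DenselyOrdered L] [TopologicalSpace.SeparableSpace L] (f : ℝ → L)
    (hM : ∀ t, MeasurableSet {α : ℝ | Irrational α ∧ α ∈ Ioo (0:ℝ) 1 ∧ t ≤ f α}) (A : ℕ)
    (hA : ∀ᵐ α ∂μ, ∀ n, A ≤ dig α n → f (gauss^[n + 1] α) ≤ f α) :
    ∃ d : L, ∀ᵐ α ∂μ, f α = d := by
  set S : L → Set ℝ := fun t => {α : ℝ | Irrational α ∧ α ∈ Ioo (0:ℝ) 1 ∧ t ≤ f α} with hSdef
  have key1 : ∀ t, μ (S t) ≠ 0 → ∀ᵐ α ∂μ, t ≤ f α := by
    intro t ht
    have h1 := hμ.large A _ (hM t) ht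
    have h2 := hμ.visit _ (measurable_pre (hM t) A) h1
    filter_upwards [h2, hA] with α h3 h4
    obtain ⟨n, hn⟩ := h3
    have h5 : A ≤ dig α n := hn.1
    have h6 : gauss (gauss^[n] α) ∈ S t := hn.2
    rw [← Function.iterate_succ_apply' gauss n α] at h6
    exact h6.2.2.trans (h4 n h5)
  have key2 : ∀ t, μ (S t) = 0 → ∀ᵐ α ∂μ, f α < t := by
    intro t ht
    have h1 : ∀ᵐ α ∂μ, α ∉ S t := measure_eq_zero_iff_ae_notMem.1 ht
    filter_upwards [h1, hμ.base] with α h2 h3
    by_contra hc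
    exact h2 ⟨h3.1, h3.2, not_lt.1 hc⟩
  obtain ⟨s, hsc, hsd⟩ := TopologicalSpace.exists_countable_dense L
  have hall : ∀ᵐ α ∂μ, ∀ t ∈ s,
      (μ (S t) ≠ 0 → t ≤ f α) ∧ (μ (S t) = 0 → f α < t) := by
    rw [ae_ball_iff hsc]
    intro t _
    by_cases h : μ (S t) = 0
    · filter_upwards [key2 t h] with α h2
      exact ⟨fun h3 => absurd h h3, fun _ => h2⟩
    · filter_upwards [key1 t h] with α h2
      exact ⟨fun _ => h2, fun h3 => absurd h3 h⟩
  refine ⟨sSup {t | t ∈ s ∧ μ (S t) ≠ 0}, ?_⟩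
  filter_upwards [hall] with α hα
  apply le_antisymm
  · by_contra hc
    rw [not_le] at hc
    obtain ⟨t, hts, h1, h2⟩ := hsd.exists_between hc
    by_cases h : μ (S t) = 0
    · exact absurd h2 (not_lt.2 ((hα t hts).2 h).le)
    · exact absurd h1 (not_lt.2 (le_sSup ⟨hts, h⟩))
  · apply sSup_le
    intro t ht
    exact (hα t ht.1).1 ht.2

lemma measurable_iter {D : Set ℝ} (hD : MeasurableSet D) (N : ℕ) :
    MeasurableSet {x : ℝ | gauss^[N] x ∈ D} := W174.Stu.measurable_gauss_iterate N hD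

lemma Typical.iter_pos {μ : Measure ℝ} (hμ : Typical μ) {D : Set ℝ} (hD : MeasurableSet D)
    (h0 : μ D ≠ 0) (N : ℕ) : μ {x : ℝ | gauss^[N] x ∈ D} ≠ 0 := by
  induction N with
  | zero => exact h0
  | succ N ih =>
    have h1 := hμ.large 0 _ (measurable_iter hD N) ih
    intro h2
    apply h1
    refine measure_mono_null ?_ h2
    rintro x ⟨-, hx⟩
    exact hx

/-- sets of positive measure are visited infinitely often -/
lemma Typical.visit_io {μ : Measure ℝ} (hμ : Typical μ) {D : Set ℝ} (hD : MeasurableSet D)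
    (h0 : μ D ≠ 0) : ∀ᵐ α ∂μ, ∃ᶠ n in atTop, gauss^[n] α ∈ D := by
  have h1 : ∀ᵐ α ∂μ, ∀ N : ℕ, ∃ n, gauss^[n] α ∈ {x : ℝ | gauss^[N] x ∈ D} := by
    rw [ae_all_iff]
    intro N
    exact hμ.visit _ (measurable_iter hD N) (hμ.iter_pos hD h0 N)
  filter_upwards [h1] with α hα
  rw [frequently_atTop]
  intro N
  obtain ⟨n, hn⟩ := hα N
  refine ⟨N + n, by omega, ?_⟩
  rw [Function.iterate_add_apply]
  exact hn

/-- almost every frequency has infinitely many pairs of digits at least `3` -/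
theorem Typical.freq3 {μ : Measure ℝ} (hμ : Typical μ) : ∀ᵐ α ∂μ,
    ∃ᶠ k in atTop, 3 ≤ dig α k ∧ 3 ≤ dig α (k + 1) := by
  by_cases h0 : μ = 0
  · rw [h0]; simp
  have p0 : μ (Ioo (0:ℝ) 1) ≠ 0 := by
    intro h
    apply h0
    have h1 : ∀ᵐ α ∂μ, α ∉ Ioo (0:ℝ) 1 := measure_eq_zero_iff_ae_notMem.1 h
    have h2 : ∀ᵐ α ∂μ, False := by
      filter_upwards [h1, hμ.base] with α a b
      exact a b.2
    rwa [eventually_false_iff_eq_bot, ae_eq_bot] at h2
  have m1 := measurable_pre measurableSet_Ioo 3 (S := Ioo (0:ℝ) 1)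
  have p1 := hμ.large 3 _ measurableSet_Ioo p0
  have m2 := measurable_pre m1 3
  have p2 := hμ.large 3 _ m1 p1
  filter_upwards [hμ.visit_io m2 p2] with α hα
  refine hα.mono fun n hn => ⟨hn.1, ?_⟩
  have h7 : 3 ≤ dig (gauss (gauss^[n] α)) 0 := hn.2.1
  rw [← Function.iterate_succ_apply' gauss n α] at h7
  exact h7

/-- Lebesgue measure on the unit interval is typical -/
theorem typical_volume : Typical (volume.restrict (Ioo (0:ℝ) 1)) where
  base := ae_good
  visit := fun E hE h0 => W174.Stu.tErg E hE (by rwa [Measure.restrict_apply hE] at h0)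
  large := by
    intro A E hE h0
    rw [Measure.restrict_apply hE] at h0
    have h1 := pos_pre (S := E ∩ Ioo 0 1) inter_subset_right h0 A
    rw [Measure.restrict_apply (measurable_pre hE A)]
    intro h2
    apply h1
    refine measure_mono_null ?_ h2
    rintro x ⟨⟨a, b⟩, c⟩
    exact ⟨⟨a, b.1⟩, c⟩
  growth := by
    filter_upwards [W174.Stu.tDig] with α hα
    intro δ hδ
    have h1 : Tendsto (fun k : ℕ => Real.exp (δ * k) / ((k : ℝ) + 1) ^ 2) atTop atTop := by
      have h2 := (tendsto_exp_mul_div_rpow_atTop 2 δ hδ).comp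
        (tendsto_natCast_atTop_atTop (R := ℝ))
      have h3 : Tendsto (fun k : ℕ => (1 / 4) * (Real.exp (δ * k) / (k : ℝ) ^ (2:ℝ))) atTop atTop :=
        h2.const_mul_atTop (by norm_num)
      refine tendsto_atTop_mono' _ ?_ h3
      filter_upwards [eventually_ge_atTop 1] with k hk
      have hk1 : (1:ℝ) ≤ k := by exact_mod_cast hk
      rw [Real.rpow_two, ← mul_div_assoc, div_le_div_iff₀ (by positivity) (by positivity)]
      have h4 : ((k : ℝ) + 1) ^ 2 ≤ 4 * (k : ℝ) ^ 2 := by nlinarith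
      have h5 := Real.exp_pos (δ * k)
      nlinarith
    filter_upwards [hα, h1.eventually_ge_atTop 1] with k hk1 hk2
    have h3 : (dig α k : ℝ) ≤ ((k : ℝ) + 1) ^ 2 := by exact_mod_cast hk1
    rw [le_div_iff₀ (by positivity)] at hk2
    linarith

/-- ergodic measures with integrable logarithm of the first digit -/
theorem typical_of_ergodic {μ : Measure ℝ} [IsProbabilityMeasure μ] (hG : Ergodic gauss μ)
    (hb : ∀ᵐ α ∂μ, Irrational α ∧ α ∈ Ioo (0:ℝ) 1)
    (hlog : Integrable (fun α => Real.log (dig α 0)) μ)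
    (hlarge : ∀ (A : ℕ) (E : Set ℝ), MeasurableSet E → μ E ≠ 0 →
      μ {x | A ≤ dig x 0 ∧ gauss x ∈ E} ≠ 0) : Typical μ where
  base := hb
  large := hlarge
  visit := by
    intro E hE h0
    set V : Set ℝ := ⋃ n, gauss^[n] ⁻¹' E with hV
    have mV : MeasurableSet V :=
      MeasurableSet.iUnion fun n => W174.Stu.measurable_gauss_iterate n hE
    have hpre : gauss ⁻¹' V ≤ᵐ[μ] V := by
      apply HasSubset.Subset.eventuallyLE
      intro x hx
      obtain ⟨n, hn⟩ := mem_iUnion.1 hx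
      refine mem_iUnion.2 ⟨n + 1, ?_⟩
      rw [mem_preimage, Function.iterate_succ_apply]
      exact hn
    rcases hG.ae_empty_or_univ_of_preimage_ae_le mV.nullMeasurableSet hpre with h | h
    · exfalso
      apply h0
      have h1 : μ V = 0 := by rw [measure_congr h, measure_empty]
      exact measure_mono_null (fun x hx => mem_iUnion.2 ⟨0, hx⟩) h1
    · filter_upwards [h.mem_iff] with α hα
      obtain ⟨n, hn⟩ := mem_iUnion.1 (hα.2 (mem_univ _))
      exact ⟨n, hn⟩
  growth := by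
    have hall : ∀ m : ℕ, ∀ᵐ α ∂μ, ∀ᶠ k : ℕ in atTop,
        α ∉ {x : ℝ | Real.exp (1 / ((m : ℝ) + 1) * k) < dig x k} := by
      intro m
      apply ae_eventually_notMem
      set δ : ℝ := 1 / ((m : ℝ) + 1) with hδ
      have hδ0 : 0 < δ := by positivity
      have hX : Integrable (fun α => Real.log (dig α 0) / δ) μ := hlog.div_const δ
      have h1 : (∑' j : ℕ, μ {ω | Real.log (dig ω 0) / δ ∈ Set.Ioi (j : ℝ)}) < ∞ :=
        @ProbabilityTheory.tsum_prob_mem_Ioi_lt_top ℝ ⟨μ⟩ ‹_›
          (fun α => Real.log (dig α 0) / δ) hX (by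
        intro α
        exact div_nonneg (Real.log_natCast_nonneg _) hδ0.le)
      refine ne_top_of_le_ne_top h1.ne (ENNReal.tsum_le_tsum fun k => ?_)
      have h2 : μ {x | Real.exp (δ * k) < dig x k} = μ {x | Real.exp (δ * k) < dig x 0} := by
        have h3 := (hG.toMeasurePreserving.iterate k).measure_preimage
          (s := {x | Real.exp (δ * k) < dig x 0})
          (measurableSet_lt measurable_const
            (measurable_from_nat.comp (W340.SD.measurable_dig 0))).nullMeasurableSet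
        exact h3
      rw [h2]
      apply measure_mono
      intro x hx
      have hx' : Real.exp (δ * k) < dig x 0 := hx
      change (k : ℝ) < Real.log (dig x 0) / δ
      rw [lt_div_iff₀ hδ0, Real.lt_log_iff_exp_lt ((Real.exp_pos _).trans hx'), mul_comm]
      exact hx'
    filter_upwards [ae_all_iff.2 hall] with α hα
    intro δ hδ
    obtain ⟨m, hm⟩ := exists_nat_one_div_lt hδ
    filter_upwards [hα m] with k hk
    refine (not_lt.1 hk).trans (Real.exp_le_exp.2 ?_)
    exact mul_le_mul_of_nonneg_right hm.le (Nat.cast_nonneg k)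

end Pool.Agent.Y16.ST
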