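import Mathlib
import Pool.Agent.Y16.ST.Typ

/-!
# Independent, identically distributed continued fraction digits
-/

set_option autoImplicit false

open MeasureTheory Filter Topology Set ProbabilityTheory
open scoped NNReal ENNReal

namespace Pool.Agent.Y16.ST

open Pool.Agent.W811.Stu Pool.Agent.W965.Stu Pool.Agent

/-- the digits from the one with number `n` on -/
noncomputable def digs (n : ℕ) (α : ℝ) : ℕ → ℕ := fun k => dig α (n + k)

lemma measurable_digs (n : ℕ) : Measurable (digs n) :=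
  measurable_pi_lambda _ fun k => W340.SD.measurable_dig (n + k)

lemma digs_iter (n m : ℕ) (α : ℝ) : digs m (gauss^[n] α) = digs (n + m) α := by
  funext k
  change ⌊(gauss^[m + k] (gauss^[n] α))⁻¹⌋₊ = ⌊(gauss^[n + m + k] α)⁻¹⌋₊
  rw [← Function.iterate_add_apply, show m + k + n = n + m + k by omega]

/-- the digits determine the frequency -/
lemma digs_inj : InjOn (digs 0) {α : ℝ | Irrational α ∧ α ∈ Ioo (0:ℝ) 1} := by
  rintro α ⟨hα, h0, h1⟩ β ⟨hβ, g0, g1⟩ h
  have hd : dig α = dig β := by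
    funext k
    have := congrFun h k
    unfold digs at this
    rwa [zero_add] at this
  by_contra hne
  have hpos : 0 < |α - β| := abs_pos.2 (sub_ne_zero.2 hne)
  obtain ⟨m, hm⟩ := exists_nat_gt (2 / |α - β|)
  have q1 := del_small hα h0 h1 (m + 2)
  have q2 := del_small hβ g0 g1 (m + 2)
  have q3 := QQ_large (fun k => dig_pos hα h0 h1 k) m
  have q4 := QQ_pos (fun k => dig_pos hα h0 h1 k) (m + 2)
  rcases q1 with q1 | q1
  swap
  · omega
  rcases q2 with q2 | q2
  swap
  · omega
  have k4 : (1:ℝ) ≤ QQ (dig α) (m + 2 + 1) := by exact_mod_cast q4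
  have k1 : |del α (m + 2)| < 1 := by
    have := abs_nonneg (del α (m + 2))
    nlinarith
  have k2 : |del β (m + 2)| < 1 := by
    rw [← hd] at q2
    have := abs_nonneg (del β (m + 2))
    nlinarith
  have k3 : (m : ℝ) + 1 ≤ QQ (dig α) (m + 2) := by exact_mod_cast q3
  have e : del α (m + 2) - del β (m + 2) = QQ (dig α) (m + 2) * (α - β) := by
    unfold del
    rw [← hd]
    ring
  have e2 : (QQ (dig α) (m + 2) : ℝ) * |α - β| < 2 := by
    have h5 : |(QQ (dig α) (m + 2) : ℝ) * (α - β)| = QQ (dig α) (m + 2) * |α - β| := by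
      rw [abs_mul, abs_of_nonneg (Nat.cast_nonneg _)]
    rw [← h5, ← e]
    calc |del α (m + 2) - del β (m + 2)| ≤ |del α (m + 2)| + |del β (m + 2)| := abs_sub _ _
      _ < 2 := by linarith
  rw [div_lt_iff₀ hpos] at hm
  nlinarith

/-- Borel sets of frequencies in terms of the digits -/
lemma exists_F {E : Set ℝ} (hE : MeasurableSet E) : ∃ F : Set (ℕ → ℕ), MeasurableSet F ∧
    ∀ α, Irrational α → α ∈ Ioo (0:ℝ) 1 → (α ∈ E ↔ digs 0 α ∈ F) := by
  refine ⟨digs 0 '' (E ∩ {α : ℝ | Irrational α ∧ α ∈ Ioo (0:ℝ) 1}), ?_, ?_⟩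
  · exact (hE.inter W340.SD.measurable_base).image_of_measurable_injOn (measurable_digs 0)
      (digs_inj.mono inter_subset_right)
  · intro α h1 h2
    constructor
    · intro h
      exact ⟨α, ⟨h, h1, h2⟩, rfl⟩
    · rintro ⟨β, ⟨h3, h4⟩, h5⟩
      rwa [← digs_inj h4 (show α ∈ {α : ℝ | Irrational α ∧ α ∈ Ioo (0:ℝ) 1} from ⟨h1, h2⟩) h5]

/-- **Independent and identically distributed digits.** -/
theorem typical_of_iid {μ : Measure ℝ} [IsProbabilityMeasure μ]
    (hb : ∀ᵐ α ∂μ, Irrational α ∧ α ∈ Ioo (0:ℝ) 1)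
    (hind : iIndepFun (fun (k : ℕ) (α : ℝ) => dig α k) μ)
    (hid : ∀ k, μ.map (fun α => dig α k) = μ.map (fun α => dig α 0))
    (hunb : ∀ A : ℕ, μ {α | A ≤ dig α 0} ≠ 0)
    (hlog : Integrable (fun α => Real.log (dig α 0)) μ) : Typical μ := by
  have hmd : ∀ k : ℕ, Measurable (fun α : ℝ => dig α k) := fun k => W340.SD.measurable_dig k
  -- the law of the digits from the one with number `n` on
  have hlaw : ∀ n, μ.map (digs n) = μ.map (digs 0) := by
    intro n
    have h1 : ∀ n : ℕ, μ.map (digs n) =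
        Measure.infinitePi (fun _ : ℕ => μ.map (fun α => dig α 0)) := by
      intro n
      have h2 : iIndepFun (fun (k : ℕ) (α : ℝ) => dig α (n + k)) μ :=
        hind.precomp (g := fun k => n + k) (fun a b h => by simpa using h)
      have h3 := h2.map_fun_eq_infinitePi_map (fun k => hmd (n + k))
      have h4 : (fun k : ℕ => μ.map (fun α => dig α (n + k))) =
          fun _ : ℕ => μ.map (fun α => dig α 0) := by
        funext k
        exact hid (n + k)
      rw [h4] at h3
      exact h3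
    rw [h1 n, h1 0]
  have hprob : ∀ n (F : Set (ℕ → ℕ)), MeasurableSet F →
      μ {α | digs n α ∈ F} = μ {α | digs 0 α ∈ F} := by
    intro n F hF
    have h1 := congrArg (fun ρ : Measure (ℕ → ℕ) => ρ F) (hlaw n)
    simp only [Measure.map_apply (measurable_digs _) hF] at h1
    exact h1
  -- every iterate of the Gauss map stays in the base
  have hbn : ∀ᵐ α ∂μ, ∀ n, Irrational (gauss^[n] α) ∧ gauss^[n] α ∈ Ioo (0:ℝ) 1 := by
    filter_upwards [hb] with α h n
    obtain ⟨a, b, c⟩ := orbit_mem h.1 h.2.1 h.2.2 n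
    exact ⟨a, b, c⟩
  have hE : ∀ E : Set ℝ, MeasurableSet E → ∃ F : Set (ℕ → ℕ), MeasurableSet F ∧
      ∀ᵐ α ∂μ, ∀ n, (gauss^[n] α ∈ E ↔ digs n α ∈ F) := by
    intro E mE
    obtain ⟨F, hF, h⟩ := exists_F mE
    refine ⟨F, hF, ?_⟩
    filter_upwards [hbn] with α hα n
    rw [h _ (hα n).1 (hα n).2, digs_iter, add_zero]
  -- sigma algebras
  set s : ℕ → MeasurableSpace ℝ := fun k => MeasurableSpace.comap (fun α : ℝ => dig α k) ⊤ with hs
  have hsle : ∀ k, s k ≤ (inferInstance : MeasurableSpace ℝ) := fun k => (hmd k).comap_le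
  have hsind : iIndep s μ := hind
  have hdigs : ∀ (n : ℕ) (m' : MeasurableSpace ℝ), (∀ k, n ≤ k → s k ≤ m') →
      Measurable[m'] (digs n) := by
    intro n m' hm'
    refine @measurable_pi_lambda _ _ _ m' _ _ fun k => ?_
    have h1 : Measurable[s (n + k)] (fun α : ℝ => dig α (n + k)) := comap_measurable _
    exact h1.mono (hm' (n + k) (by omega)) le_rfl
  refine ⟨hb, ?_, ?_, ?_⟩
  · -- visits
    intro E mE h0
    obtain ⟨F, hF, hEF⟩ := hE E mE
    set t : Set ℝ := ⋂ M : ℕ, ⋃ n : ℕ, {α | digs (M + n) α ∈ F} with ht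
    have htail : MeasurableSet[limsup s atTop] t := by
      rw [limsup_eq_iInf_iSup_of_nat, MeasurableSpace.measurableSet_iInf]
      intro N
      have e : t = ⋂ M : ℕ, ⋃ n : ℕ, {α | digs (N + M + n) α ∈ F} := by
        ext α
        simp only [ht, mem_iInter, mem_iUnion, mem_setOf_eq]
        constructor
        · intro h M
          exact h (N + M)
        · intro h M
          obtain ⟨n, hn⟩ := h M
          exact ⟨N + n, by rw [show M + (N + n) = N + M + n by omega]; exact hn⟩
      rw [e]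
      refine MeasurableSet.iInter fun M => MeasurableSet.iUnion fun n => ?_
      exact hdigs (N + M + n) _ (fun k hk => le_iSup₂_of_le k (by omega) le_rfl) hF
    have h01 := measure_zero_or_one_of_measurableSet_limsup_atTop hsle hsind htail
    have mt : MeasurableSet t := by
      refine MeasurableSet.iInter fun M => MeasurableSet.iUnion fun n => ?_
      exact measurable_digs _ hF
    have hF0 : μ {α | digs 0 α ∈ F} ≠ 0 := by
      intro h
      apply h0
      have h1 : ∀ᵐ α ∂μ, α ∉ {α | digs 0 α ∈ F} := measure_eq_zero_iff_ae_notMem.1 h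
      have h2 : ∀ᵐ α ∂μ, α ∉ E := by
        filter_upwards [h1, hEF] with α a b
        exact fun hc => a ((b 0).1 hc)
      exact measure_eq_zero_iff_ae_notMem.2 h2
    have hpos : μ {α | digs 0 α ∈ F} ≤ μ t := by
      have hanti : Antitone fun M : ℕ => ⋃ n : ℕ, {α | digs (M + n) α ∈ F} := by
        intro M M' hM α hα
        simp only [mem_iUnion, mem_setOf_eq] at hα ⊢
        obtain ⟨n, hn⟩ := hα
        exact ⟨M' - M + n, by rw [show M + (M' - M + n) = M' + n by omega]; exact hn⟩
      have hmeas : ∀ M : ℕ, MeasurableSet (⋃ n : ℕ, {α | digs (M + n) α ∈ F}) := fun M =>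
        MeasurableSet.iUnion fun n => measurable_digs _ hF
      rw [ht, hanti.measure_iInter (fun M => (hmeas M).nullMeasurableSet)
        ⟨0, measure_ne_top μ _⟩]
      refine le_iInf fun M => ?_
      rw [← hprob M F hF]
      apply measure_mono
      intro α hα
      exact mem_iUnion.2 ⟨0, hα⟩
    have ht1 : μ t = 1 := by
      rcases h01 with h | h
      · rw [h] at hpos
        exact absurd (le_antisymm hpos zero_le) hF0
      · exact h
    have hae : ∀ᵐ α ∂μ, α ∈ t := by
      rw [← prob_compl_eq_zero_iff mt] at ht1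
      have := measure_eq_zero_iff_ae_notMem.1 ht1
      filter_upwards [this] with α hα
      simpa using hα
    filter_upwards [hae, hEF] with α a b
    obtain ⟨n, hn⟩ := mem_iUnion.1 (mem_iInter.1 a 0)
    exact ⟨0 + n, (b (0 + n)).2 hn⟩
  · -- large digits
    intro A E mE h0
    obtain ⟨F, hF, hEF⟩ := hE E mE
    have hF0 : μ {α | digs 1 α ∈ F} ≠ 0 := by
      rw [hprob 1 F hF]
      intro h
      apply h0
      have h1 : ∀ᵐ α ∂μ, α ∉ {α | digs 0 α ∈ F} := measure_eq_zero_iff_ae_notMem.1 h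
      have h2 : ∀ᵐ α ∂μ, α ∉ E := by
        filter_upwards [h1, hEF] with α a b
        exact fun hc => a ((b 0).1 hc)
      exact measure_eq_zero_iff_ae_notMem.2 h2
    have hI : Indep (⨆ i ∈ ({0} : Set ℕ), s i) (⨆ i ∈ Ici 1, s i) μ :=
      indep_iSup_of_disjoint hsle hsind (by
        rw [Set.disjoint_left]
        rintro a ha hb
        rw [mem_singleton_iff] at ha
        rw [ha] at hb
        exact absurd (mem_Ici.1 hb) (by omega))
    have m1 : MeasurableSet[⨆ i ∈ ({0} : Set ℕ), s i] {α : ℝ | A ≤ dig α 0} := by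
      have h1 : MeasurableSet[s 0] {α : ℝ | A ≤ dig α 0} := ⟨Ici A, trivial, rfl⟩
      exact le_iSup₂_of_le (f := fun i (_ : i ∈ ({0} : Set ℕ)) => s i) 0 rfl le_rfl _ h1
    have m2 : MeasurableSet[⨆ i ∈ Ici 1, s i] {α : ℝ | digs 1 α ∈ F} :=
      hdigs 1 _ (fun k hk => le_iSup₂_of_le (f := fun i (_ : i ∈ Ici 1) => s i) k hk le_rfl) hF
    have h1 := (Indep_iff _ _ μ).1 hI _ _ m1 m2
    have h2 : μ ({α : ℝ | A ≤ dig α 0} ∩ {α : ℝ | digs 1 α ∈ F}) ≠ 0 := by
      rw [h1]
      exact mul_ne_zero (hunb A) hF0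
    intro h3
    apply h2
    have h4 : ∀ᵐ α ∂μ, α ∉ {x | A ≤ dig x 0 ∧ gauss x ∈ E} := measure_eq_zero_iff_ae_notMem.1 h3
    apply measure_eq_zero_iff_ae_notMem.2
    filter_upwards [h4, hEF] with α a b
    rintro ⟨c1, c2⟩
    exact a ⟨c1, (b 1).2 c2⟩
  · -- growth
    have hall : ∀ m : ℕ, ∀ᵐ α ∂μ, ∀ᶠ k : ℕ in atTop,
        α ∉ {x : ℝ | Real.exp (1 / ((m : ℝ) + 1) * k) < dig x k} := by
      intro m
      apply ae_eventually_notMem
      set δ : ℝ := 1 / ((m : ℝ) + 1) with hδ
      have hδ0 : 0 < δ := by positivity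
      have hX : Integrable (fun α => Real.log (dig α 0) / δ) μ := hlog.div_const δ
      have h1 : (∑' j : ℕ, μ {ω | Real.log (dig ω 0) / δ ∈ Set.Ioi (j : ℝ)}) < ∞ :=
        @ProbabilityTheory.tsum_prob_mem_Ioi_lt_top ℝ ⟨μ⟩ ‹_›
          (fun α => Real.log (dig α 0) / δ) hX (by
        intro α
        exact div_nonneg (Real.log_natCast_nonneg _) hδ0.le)
      refine ne_top_of_le_ne_top h1.ne (ENNReal.tsum_le_tsum fun k => ?_)
      have h2 : μ {x | Real.exp (δ * k) < dig x k} = μ {x | Real.exp (δ * k) < dig x 0} := by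
        have h3 := congrArg (fun ρ : Measure ℕ => ρ {j | Real.exp (δ * k) < j}) (hid k)
        simp only [Measure.map_apply (hmd _) (MeasurableSet.of_discrete (s := {j : ℕ |
          Real.exp (δ * k) < j}))] at h3
        exact h3
      rw [h2]
      apply measure_mono
      intro x hx
      have hx' : Real.exp (δ * k) < dig x 0 := hx
      change (k : ℝ) < Real.log (dig x 0) / δ
      rw [lt_div_iff₀ hδ0, Real.lt_log_iff_exp_lt ((Real.exp_pos _).trans hx'), mul_comm]
      exact hx'
    filter_upwards [ae_all_iff.2 hall] with α hα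
    intro δ hδ
    obtain ⟨m, hm⟩ := exists_nat_one_div_lt hδ
    filter_upwards [hα m] with k hk
    refine (not_lt.1 hk).trans (Real.exp_le_exp.2 ?_)
    exact mul_le_mul_of_nonneg_right hm.le (Nat.cast_nonneg k)

end Pool.Agent.Y16.ST
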