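import Mathlib
import Pool.Agent.W811.Stu.Real
import Pool.Agent.Y16.ST.Typ

/-!
# Dimensions of Sturmian spectra for typical frequencies
-/

set_option autoImplicit false

open MeasureTheory Filter Topology Set
open scoped NNReal ENNReal

namespace Pool.Agent.Y16.ST

open Pool.Agent.W811.Stu Pool.Agent.W965.Stu Pool.Agent
open Pool.Agent.H695R3.ST Pool.Agent.Helper434.PSCplx

lemma sh_dig (α : ℝ) (n : ℕ) : (fun k => dig α (n + 1 + k)) = dig (gauss^[n + 1] α) := by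
  funext k
  unfold dig
  rw [← Function.iterate_add_apply, add_comm k]

/-- measurability of the Hausdorff dimension -/
theorem meas_dimH {lam : ℝ} (hlam : 0 < lam) (t : ℝ≥0∞) :
    MeasurableSet {α : ℝ | Irrational α ∧ α ∈ Ioo (0:ℝ) 1 ∧ t ≤ dimH (Sp lam (dig α))} := by
  obtain ⟨R, hR⟩ := exists_R W308.Stu.tBdd hlam
  have h1 := W340.SD.tMeas (CC lam R) (CC_compact lam R) (CC_anti lam R) (CC_congr lam R) t
  have h2 : {α : ℝ | Irrational α ∧ α ∈ Ioo (0:ℝ) 1 ∧ t ≤ dimH (Sp lam (dig α))} =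
      {α : ℝ | Irrational α ∧ α ∈ Ioo (0:ℝ) 1 ∧ t ≤ dimH (⋂ n, CC lam R n (dig α))} := by
    ext α
    constructor
    · rintro ⟨a, b, c⟩
      refine ⟨a, b, ?_⟩
      rwa [← hR (dig α) (fun k => dig_pos a b.1 b.2 k)]
    · rintro ⟨a, b, c⟩
      refine ⟨a, b, ?_⟩
      rwa [hR (dig α) (fun k => dig_pos a b.1 b.2 k)]
  rw [h2]
  exact h1

/-- after a large digit both dimensions can only become smaller -/
theorem semi {lam : ℝ} (hlam : 0 < lam) : ∃ A : ℕ, ∀ α : ℝ, Irrational α → α ∈ Ioo (0:ℝ) 1 →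
    SubExp (dig α) → ∀ n, A ≤ dig α n →
      dimH (Sp lam (dig (gauss^[n + 1] α))) ≤ dimH (Sp lam (dig α)) ∧
      ubox (Sp lam (dig (gauss^[n + 1] α))) ≤ ubox (Sp lam (dig α)) := by
  obtain ⟨A, hA⟩ := keyS lam hlam
  refine ⟨A, fun α hα hI hg n hn => ?_⟩
  have hd : ∀ k, 1 ≤ dig α k := fun k => dig_pos hα hI.1 hI.2 k
  have h : ∀ r : ℝ≥0, 0 < r → r < 1 → ∃ (C : ℝ≥0) (g : ℝ → ℝ) (Q : Set ℝ), Q ⊆ Sp lam (dig α) ∧
      g '' Q = Sp lam (dig (gauss^[n + 1] α)) ∧ HolderOnWith C r g Q := by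
    intro r hr0 hr1
    obtain ⟨C, g, Q, a1, a2, a3⟩ := hA (dig α) hd n hn hg r hr0 hr1
    exact ⟨C, g, Q, a1, by rw [a2, sh_dig], a3⟩
  exact ⟨dimH_le_of_holder h, ubox_le_of_holder (Sp_compact W308.Stu.tBdd hlam hd) h⟩

/-- the spectrum in terms of the traces, for every phase -/
theorem spec_eq {lam : ℝ} (hlam : 0 < lam) {α : ℝ} (hα : Irrational α) (hI : α ∈ Ioo (0:ℝ) 1)
    (hf : ∃ᶠ k in atTop, 3 ≤ dig α k ∧ 3 ≤ dig α (k + 1)) (ω : ℝ) (T : L2 →L[ℂ] L2)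
    (hT : IsSchr (pot lam α ω) T) :
    {E : ℝ | (E : ℂ) ∈ spectrum ℂ T} = Sp lam (dig α) := by
  obtain ⟨T0, hT0, -⟩ := exists_schr (pot_bound hlam.le α 0)
  have hT0' : IsSturm lam α T0 := by
    intro u n
    rw [hT0 u n, pot_floor hI.1 hI.2]
    congr 3
    push_cast
    simp only [zero_add]
  have e : {E : ℝ | (E : ℂ) ∈ spectrum ℂ T} = {E : ℝ | (E : ℂ) ∈ spectrum ℂ T0} := by
    rw [conv_spec, conv_spec]
    exact Set.Subset.antisymm (spec_phase hlam.le hα hT hT0) (spec_phase hlam.le hα hT0 hT)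
  rw [e]
  exact Pool.Agent.W965.Stu.tOp lam hlam α hα hI.1 hI.2 hf T0 hT0'

/-- **Both dimensions are constant almost everywhere for every typical measure.** -/
theorem constT {lam : ℝ} (hlam : 0 < lam) {μ : Measure ℝ} (hμ : Typical μ) :
    ∃ (dH : ℝ≥0∞) (dB : EReal), ∀ᵐ α ∂μ, dimH (Sp lam (dig α)) = dH ∧ ubox (Sp lam (dig α)) = dB := by
  obtain ⟨A, hA⟩ := semi hlam
  have hA' : ∀ᵐ α ∂μ, ∀ n, A ≤ dig α n →
      dimH (Sp lam (dig (gauss^[n + 1] α))) ≤ dimH (Sp lam (dig α)) ∧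
      ubox (Sp lam (dig (gauss^[n + 1] α))) ≤ ubox (Sp lam (dig α)) := by
    filter_upwards [hμ.base, hμ.growth] with α h1 h2 n hn
    exact hA α h1.1 h1.2 h2 n hn
  obtain ⟨dH, hH⟩ := zero_oneT hμ (fun α => dimH (Sp lam (dig α))) (meas_dimH hlam) A (by
    filter_upwards [hA'] with α h n hn
    exact (h n hn).1)
  obtain ⟨dB, hB⟩ := zero_oneT hμ (fun α => ubox (Sp lam (dig α)))
    (meas_ubox W308.Stu.tBdd hlam) A (by
    filter_upwards [hA'] with α h n hn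
    exact (h n hn).2)
  refine ⟨dH, dB, ?_⟩
  filter_upwards [hH, hB] with α a b
  exact ⟨a, b⟩

/-- the dimensions as real numbers -/
theorem constReal {lam : ℝ} (hlam : 0 < lam) {μ : Measure ℝ} (hμ : Typical μ) :
    ∃ cH cB : ℝ, 0 ≤ cH ∧ cH ≤ 1 ∧ 0 ≤ cB ∧ cB ≤ 1 ∧
      ∀ᵐ α ∂μ, dimH (Sp lam (dig α)) = ENNReal.ofReal cH ∧ ubox (Sp lam (dig α)) = (cB : EReal) := by
  by_cases h0 : μ = 0
  · exact ⟨0, 0, le_rfl, zero_le_one, le_rfl, zero_le_one, by rw [h0]; simp⟩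
  obtain ⟨dH, dB, h⟩ := constT hlam hμ
  have : (ae μ).NeBot := ae_neBot.2 h0
  obtain ⟨α0, h1, h2⟩ := (h.and hμ.base).exists
  obtain ⟨C, hC⟩ := W308.Stu.tBdd lam hlam
  have hd : ∀ k, 1 ≤ dig α0 k := fun k => dig_pos h2.1 h2.2.1 h2.2.2 k
  have hR : ∀ E ∈ Sp lam (dig α0), |E| ≤ 2 * C := by
    intro E hE
    have h1 := (hC (dig α0) hd E hE 0).2.1
    have h2 : (orb (dig α0) (lin lam E) 0).y = E / 2 := rfl
    rw [h2, abs_div, abs_two] at h1
    linarith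
  have hC0 : 0 ≤ max (2 * C) 0 := le_max_right _ _
  have hH : dH ≤ 1 := by rw [← h1.1]; exact dimH_le_one _
  have hB0 : 0 ≤ dB := by rw [← h1.2]; exact ubox_nonneg _
  have hB1 : dB ≤ 1 := by
    rw [← h1.2]
    exact ubox_le_one hC0 (fun E hE => (hR E hE).trans (le_max_left _ _))
  have hBt : dB ≠ ⊤ := by
    intro h1; rw [h1] at hB1; exact absurd hB1 (by decide)
  have hBb : dB ≠ ⊥ := by
    intro h1; rw [h1] at hB0; exact absurd hB0 (by simp)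
  refine ⟨dH.toReal, dB.toReal, ENNReal.toReal_nonneg, ?_, ?_, ?_, ?_⟩
  · have := ENNReal.toReal_mono ENNReal.one_ne_top hH
    rwa [ENNReal.toReal_one] at this
  · exact EReal.toReal_nonneg hB0
  · have := EReal.toReal_le_toReal hB1 hBb (by decide)
    simpa using this
  · filter_upwards [h] with α k
    refine ⟨?_, ?_⟩
    · rw [k.1, ENNReal.ofReal_toReal]
      exact ne_top_of_le_ne_top (by norm_num) hH
    · rw [k.2, EReal.coe_toReal hBt hBb]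

end Pool.Agent.Y16.ST
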