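import Mathlib
import Pool.Agent.W811.Dos.Final
import Pool.Agent.Y16.ST.Typ

/-!
# The density of states measure of Sturmian operators: typical frequencies
-/

set_option autoImplicit false

open MeasureTheory Filter Topology Set
open scoped ENNReal NNReal

namespace Pool.Agent.Y16.ST

open Pool.Agent.W811.Stu Pool.Agent.W811.Dos Pool.Agent.H695R3.ST Pool.Agent.W965.Stu Pool.Agent

/-- the inequality for one large digit -/
theorem ineqS (hcr : TCr) (hinj : TInj) (hls : TLs) (hh2 : TH2) (hqq : TQq) (hzc : TZc) (hat : TAt)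
    (hcp1 : TCp1) (hcp2 : TCp2) (hhol : THolS) : ∀ lam : ℝ, 0 < lam → ∃ A : ℕ, ∀ α : ℝ,
    Irrational α → 0 < α → α < 1 → SubExp (dig α) → ∀ n, A ≤ dig α n →
    ∀ μ ν : Measure ℝ, IsProbabilityMeasure μ →
      Lim (fun m => zs lam m (dig (gauss^[n + 1] α))) μ →
      IsProbabilityMeasure ν → Lim (fun m => zs lam m (dig α)) ν → upDim μ ≤ upDim ν := by
  intro lam hlam
  obtain ⟨A, hA⟩ := hcr lam hlam
  refine ⟨A, ?_⟩
  intro α hα h0 h1 hgr n hn μ ν hμ hLμ hν hLν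
  set d := dig α with hd
  have hd1 : ∀ k, 1 ≤ d k := fun k => dig_pos hα h0 h1 k
  obtain ⟨b1, b2, b3⟩ := gauss_iter_good hα h0 h1 (n + 1)
  set β := gauss^[n + 1] α with hβ
  have hsh : sh d n = dig β := Pool.Agent.W811.Dos.sh_dig α n
  have hb1 : ∀ k, 1 ≤ dig β k := fun k => dig_pos b1 b2 b3 k
  obtain ⟨e0, e1, hW, hcross⟩ := hA d hd1 n hn
  obtain ⟨C, hC⟩ := hqq d n hd1
  -- zeros
  have hZ : ∀ m, 1 ≤ m → (∀ E, E ∈ zs lam m (dig β) ↔ (orb (dig β) (lin lam E) m).y = 0) ∧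
      (zs lam m (dig β)).card = QQ (dig β) (m + 1) ∧ ∀ E ∈ zs lam m (dig β), |E| ≤ 2 + lam :=
    fun m hm => hzc lam hlam β b1 b2 b3 m hm
  have hWz : ∀ m, 1 ≤ m → (∀ E, E ∈ zs lam m d ↔ (orb d (lin lam E) m).y = 0) ∧
      (zs lam m d).card = QQ d (m + 1) ∧ ∀ E ∈ zs lam m d, |E| ≤ 2 + lam :=
    fun m hm => hzc lam hlam α hα h0 h1 m hm
  -- the crossing points
  have hι : ∀ m : ℕ, ∀ x : ℝ, ∃ y : ℝ, x ∈ zs lam (m + 2) (dig β) →
      y ∈ Icc e0 e1 ∧ Joined (lam / 2) (sh d n) (m + 2) (lin lam x) (Ga lam d n y) := by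
    intro m x
    by_cases hx : x ∈ zs lam (m + 2) (dig β)
    · have h2 := ((hZ (m + 2) (by omega)).1 x).1 hx
      obtain ⟨y, hy1, hy2⟩ := hcross x (m + 2) (by omega) (by rw [hsh, h2]; norm_num)
      exact ⟨y, fun _ => ⟨hy1, hy2⟩⟩
    · exact ⟨0, fun h => absurd h hx⟩
  choose ι hι using hι
  have hlev : ∀ m, ∀ x ∈ zs lam (m + 2) (dig β),
      (orb (sh d n) (Ga lam d n (ι m x)) (m + 2)).y = 0 := by
    intro m x hx
    obtain ⟨g, s, t, hg, hgs, hgt⟩ := (hι m x hx).2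
    have := hg.lev t Set.right_mem_uIcc
    rw [hgs, hgt, hsh] at this
    rw [hsh, this]
    exact ((hZ (m + 2) (by omega)).1 x).1 hx
  obtain ⟨π, hπ, hπ1, hπ2, hπ3⟩ := hcp1 (fun m => zs lam (m + 2) (dig β))
    (fun m => zs lam (n + 1 + (m + 2)) d) ι μ ν C (2 + lam) e0 e1 hμ hν (Nat.cast_nonneg C)
    (by
      intro m
      rw [← Finset.card_pos, (hZ (m + 2) (by omega)).2.1]
      exact QQ_pos hb1 _)
    (fun m => (hZ (m + 2) (by omega)).2.2)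
    (by
      intro m x hx x' hx' h
      refine hinj lam hlam.ne' (sh d n) (fun k => hd1 _) (m + 2) (by omega)
        (Ga lam d n (ι m x)) x x' (hι m x hx).2 ?_ (hlev m x hx)
      rw [h]
      exact (hι m x' hx').2)
    (by
      intro m x hx
      refine ⟨?_, (hι m x hx).1⟩
      rw [(hWz (n + 1 + (m + 2)) (by omega)).1, orb_add]
      exact hlev m x hx)
    (by
      intro m
      rw [(hWz (n + 1 + (m + 2)) (by omega)).2.1, (hZ (m + 2) (by omega)).2.1]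
      have := hC (m + 2)
      rw [hsh] at this
      exact_mod_cast this)
    (fun g hg => (hLμ g hg).comp (tendsto_add_atTop_nat 2))
    (fun g hg => (hLν g hg).comp (tendsto_atTop_mono (fun m => by show m ≤ _; omega) tendsto_id))
  set R : Set (ℝ × ℝ) := {p | p.1 ∈ Sp lam (sh d n) ∧ Hol lam d n e0 e1 p.1 p.2} with hR
  refine hcp2 μ ν π C R hπ hπ1 hπ2 ?_ ?_
  · -- the coupling is carried by `R`
    have hend : ∀ e : ℝ, π (Prod.snd ⁻¹' {e}) = 0 := by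
      intro e
      have h2 := hπ2 {e} (measurableSet_singleton e)
      rw [hat lam hlam α hα h0 h1 ν hν hLν e, mul_zero] at h2
      exact le_antisymm h2 (zero_le)
    have hsub : Rᶜ ⊆ {p : ℝ × ℝ | ¬ (LP (fun m => zs lam (m + 2) (dig β)) ι p.1 p.2 ∧
        p.2 ∈ Icc e0 e1)} ∪ (Prod.snd ⁻¹' {e0} ∪ Prod.snd ⁻¹' {e1}) := by
      intro p hp
      by_contra hcon
      simp only [mem_union, mem_setOf_eq, not_or, not_not, mem_preimage, mem_singleton_iff] at hcon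
      obtain ⟨⟨hLP, hIcc⟩, hne0, hne1⟩ := hcon
      apply hp
      have hIoo : p.2 ∈ Ioo e0 e1 :=
        ⟨lt_of_le_of_ne hIcc.1 (Ne.symm hne0), lt_of_le_of_ne hIcc.2 hne1⟩
      have hsp : p.1 ∈ Sp lam (sh d n) := by
        refine hls lam hlam (sh d n) (fun k => hd1 _) p.1 fun ε hε N => ?_
        obtain ⟨m, hm, t, ht, ht1, -⟩ := hLP ε hε N
        refine ⟨m + 2, by omega, t, ht1, ?_⟩
        rw [hsh, ((hZ (m + 2) (by omega)).1 t).1 ht]
        norm_num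
      refine ⟨hsp, hh2 lam hlam d n hd1 e0 e1 hW p.1 p.2 hsp hIoo ?_⟩
      intro ε hε N
      obtain ⟨m, hm, t, ht, ht1, ht2⟩ := hLP ε hε N
      refine ⟨m + 2, by omega, t, ht1, ι m t, (hι m t ht).1, ht2, ?_, (hι m t ht).2⟩
      rw [hsh, ((hZ (m + 2) (by omega)).1 t).1 ht]
      norm_num
    refine measure_mono_null hsub ?_
    rw [measure_union_null_iff, measure_union_null_iff]
    exact ⟨hπ3, hend e0, hend e1⟩
  · intro r hr0 hr1
    obtain ⟨Cr, -, hCr⟩ := hhol lam hlam d n hd1 hgr e0 e1 hW r hr0 hr1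
    exact ⟨Cr, fun p hp p' hp' => hCr p.1 hp.1 p'.1 hp'.1 p.2 p'.2 hp.2 hp'.2⟩


/-- the upper Hausdorff dimension of the density of states measure: measurability in the
frequency, the inequality after a large digit, and constancy for typical measures -/
theorem dosT {lam : ℝ} (hlam : 0 < lam) : ∃ N : ℝ → Measure ℝ,
    (∀ α, Irrational α → α ∈ Ioo (0:ℝ) 1 →
      IsDOS lam α (N α) ∧ ∀ μ', IsDOS lam α μ' → μ' = N α) ∧
    (∀ t : ℝ≥0∞, MeasurableSet {α : ℝ | Irrational α ∧ α ∈ Ioo (0:ℝ) 1 ∧ t ≤ upDim (N α)}) ∧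
    (∃ A : ℕ, ∀ α, Irrational α → α ∈ Ioo (0:ℝ) 1 → SubExp (dig α) → ∀ n, A ≤ dig α n →
      upDim (N (gauss^[n + 1] α)) ≤ upDim (N α)) ∧
    ∀ μ : Measure ℝ, Typical μ → ∃ c : ℝ, 0 ≤ c ∧ c ≤ 1 ∧
      ∀ᵐ α ∂μ, upDim (N α) = ENNReal.ofReal c := by
  have hdos : TDos := (Pool.Agent.W672.Dos.dos Pool.Agent.W247.Dos.tr Pool.Agent.W688.Dos.wl
    Pool.Agent.W688.Dos.zc tQf Pool.Agent.W247.Dos.lm)
  have hmes : TMes := (Pool.Agent.W7.Dos.mes Pool.Agent.W382.Dos.Ud.ud)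
  obtain ⟨A, hA⟩ := ineqS tCr tInj tLs tH2 tQq Pool.Agent.W688.Dos.zc
    (tAt Pool.Agent.W335.Dos.na Pool.Agent.W688.Dos.zc) cp1 cp2 tHolS lam hlam
  have hex : ∀ α : ℝ, ∃ μ : Measure ℝ, Irrational α → 0 < α → α < 1 →
      IsDOS lam α μ ∧ (∀ μ', IsDOS lam α μ' → μ' = μ) ∧ Lim (fun m => zs lam m (dig α)) μ := by
    intro α
    by_cases h : Irrational α ∧ 0 < α ∧ α < 1
    · obtain ⟨μ, hμ⟩ := hdos lam hlam α h.1 h.2.1 h.2.2
      exact ⟨μ, fun _ _ _ => hμ⟩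
    · exact ⟨0, fun h1 h2 h3 => absurd ⟨h1, h2, h3⟩ h⟩
  choose N hN using hex
  have hM := hmes (fun m d => zs lam m d) (zs_congr lam) N
    (fun α h1 h2 => ⟨(hN α h1 h2.1 h2.2).1.1, (hN α h1 h2.1 h2.2).2.2⟩)
  have hsemi : ∀ α, Irrational α → α ∈ Ioo (0:ℝ) 1 → SubExp (dig α) → ∀ n, A ≤ dig α n →
      upDim (N (gauss^[n + 1] α)) ≤ upDim (N α) := by
    intro α h1 h2 h3 n hn
    obtain ⟨g1, g2, g3⟩ := gauss_iter_good h1 h2.1 h2.2 (n + 1)
    have k1 := hN α h1 h2.1 h2.2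
    have k2 := hN _ g1 g2 g3
    exact hA α h1 h2.1 h2.2 h3 n hn _ _ k2.1.1 k2.2.2 k1.1.1 k1.2.2
  refine ⟨N, fun α h1 h2 => ⟨(hN α h1 h2.1 h2.2).1, (hN α h1 h2.1 h2.2).2.1⟩, hM, ⟨A, hsemi⟩, ?_⟩
  intro μ hμ
  obtain ⟨c, hc⟩ := zero_oneT hμ (fun α => upDim (N α)) hM A (by
    filter_upwards [hμ.base, hμ.growth] with α h1 h2 n hn
    exact hsemi α h1.1 h1.2 h2 n hn)
  by_cases h0 : μ = 0
  · exact ⟨0, le_rfl, zero_le_one, by rw [h0]; simp⟩
  have hne : NeBot (ae μ) := ae_neBot.2 h0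
  obtain ⟨α, hα⟩ := hc.exists
  have hc1 : c ≤ 1 := hα ▸ upDim_le_one (N α)
  have hct : c ≠ ⊤ := ne_top_of_le_ne_top ENNReal.one_ne_top hc1
  refine ⟨c.toReal, ENNReal.toReal_nonneg, ?_, ?_⟩
  · have := ENNReal.toReal_mono ENNReal.one_ne_top hc1
    rwa [ENNReal.toReal_one] at this
  · rw [ENNReal.ofReal_toReal hct]
    exact hc

end Pool.Agent.Y16.ST
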